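import Mathlib

/-!
# Cops and robbers: strategies, and two general tools
-/

namespace Pool.Agent.R5.CA

variable {V : Type*}

/-- The list of the first `n` positions of the robber, most recent first. -/
def hist (r : ℕ → V) : ℕ → List V
  | 0 => []
  | n + 1 => r n :: hist r n

/-- `m` cops have a winning strategy when a single move (of a cop or of the robber) goes from `u` to
some `v` with `mv u v`. A strategy is a function `S` of the list of all past positions of the robber:
`S []` is the initial placement of the cops, and after the robber has occupied `r 0, …, r n` the cops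
move to `S [r n, …, r 0]`. The cops win if, whatever legal sequence of positions the robber takes,
some cop is at some moment on the vertex of the robber: either when the robber has just been placed
on or moved to `r n`, or after the following move of the cops. -/
def CopsWin (mv : V → V → Prop) (m : ℕ) : Prop :=
  ∃ S : List V → (Fin m → V),
    (∀ h v i, mv (S h i) (S (v :: h) i)) ∧
    ∀ r : ℕ → V, (∀ n, mv (r n) (r (n + 1))) →
      ∃ n i, S (hist r n) i = r n ∨ S (hist r (n + 1)) i = r n

/-- The least number of cops having a winning strategy. -/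
noncomputable def copNumber (mv : V → V → Prop) : ℕ := sInf {m | CopsWin mv m}

/-- The cop number: moves go to an adjacent vertex or stay put. -/
noncomputable def cop (G : SimpleGraph V) : ℕ := copNumber (fun u v => u = v ∨ G.Adj u v)

/-- The fully active cop number: every cop and the robber must move to an adjacent vertex. -/
noncomputable def acop (G : SimpleGraph V) : ℕ := copNumber (fun u v => G.Adj u v)

/-- The cops (indexed by `ι`) can capture within `n` of their moves, when it is their turn. -/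
def Wn {ι : Type*} (mv : V → V → Prop) : ℕ → (ι → V) → V → Prop
  | 0, _, _ => False
  | n + 1, C, v => ∃ C' : ι → V, (∀ i, mv (C i) (C' i)) ∧
      ((∃ i, C' i = v) ∨ ∀ v', mv v v' → (∃ i, C' i = v') ∨ Wn mv n C' v')

lemma Wn_succ {ι : Type*} {mv : V → V → Prop} : ∀ {n : ℕ} {C : ι → V} {v : V},
    Wn mv n C v → Wn mv (n + 1) C v := by
  intro n
  induction n with
  | zero => intro C v h; exact absurd h (by simp [Wn])
  | succ n ih =>
    intro C v h
    obtain ⟨C', h1, h2⟩ := h
    refine ⟨C', h1, ?_⟩
    rcases h2 with h2 | h2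
    · exact Or.inl h2
    · right
      intro v' hv'
      rcases h2 v' hv' with h3 | h3
      · exact Or.inl h3
      · exact Or.inr (ih h3)

lemma Wn_mono {ι : Type*} {mv : V → V → Prop} {n n' : ℕ} (h : n ≤ n') {C : ι → V} {v : V}
    (hw : Wn mv n C v) : Wn mv n' C v := by
  induction n', h using Nat.le_induction with
  | base => exact hw
  | succ k _ ih => exact Wn_succ ih

lemma Wn_one {ι : Type*} {mv : V → V → Prop} (hd : ∀ v, ∃ v', mv v v') {C : ι → V} {v : V}
    (h : ∃ i, mv (C i) v) : Wn mv 1 C v := by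
  classical
  obtain ⟨i, hi⟩ := h
  choose d hd using hd
  refine ⟨fun j => if j = i then v else d (C j), ?_, Or.inl ⟨i, by simp⟩⟩
  intro j
  by_cases hj : j = i
  · subst hj; simpa using hi
  · simpa [hj] using hd (C j)

theorem copsWin_of_Wn {ι : Type*} {mv : V → V → Prop} (hd : ∀ v, ∃ v', mv v v')
    {m : ℕ} (e : Fin m ≃ ι) (C0 : ι → V)
    (h : ∀ v, (∃ i, C0 i = v) ∨ ∃ n, Wn mv n C0 v) : CopsWin mv m := by
  classical
  -- one step of the strategy
  have hstep : ∀ (C : ι → V) (v : V), ∃ C' : ι → V, (∀ i, mv (C i) (C' i)) ∧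
      ∀ n, Wn mv n C v → ((∃ i, C' i = v) ∨
        ∀ v', mv v v' → (∃ i, C' i = v') ∨ ∃ n' < n, Wn mv n' C' v') := by
    intro C v
    by_cases hex : ∃ n, Wn mv n C v
    · have hmin := Nat.find_spec hex
      obtain ⟨n0, hn0⟩ : ∃ n0, Nat.find hex = n0 + 1 := by
        rcases Nat.eq_zero_or_pos (Nat.find hex) with h0 | h0
        · rw [h0] at hmin
          exact absurd hmin (by simp [Wn])
        · exact ⟨Nat.find hex - 1, by omega⟩
      rw [hn0] at hmin
      obtain ⟨C', h1, h2⟩ := hmin
      refine ⟨C', h1, ?_⟩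
      intro n hn
      have hle : n0 + 1 ≤ n := by rw [← hn0]; exact Nat.find_min' hex hn
      rcases h2 with h2 | h2
      · exact Or.inl h2
      · right
        intro v' hv'
        rcases h2 v' hv' with h3 | h3
        · exact Or.inl h3
        · exact Or.inr ⟨n0, by omega, h3⟩
    · choose d hd' using hd
      refine ⟨fun i => d (C i), fun i => hd' (C i), ?_⟩
      intro n hn
      exact absurd ⟨n, hn⟩ hex
  choose nxt hn1 hn2 using hstep
  let T : List V → (ι → V) := fun l => List.rec C0 (fun v _ C => nxt C v) l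
  have hT0 : T [] = C0 := rfl
  have hT1 : ∀ v l, T (v :: l) = nxt (T l) v := fun v l => rfl
  refine ⟨fun l i => T l (e i), ?_, ?_⟩
  · intro l v i
    show mv (T l (e i)) (T (v :: l) (e i))
    rw [hT1]
    exact hn1 _ _ _
  · intro r hr
    -- it suffices to capture with the index set ι
    have main : ∀ n k, Wn mv n (T (hist r k)) (r k) →
        ∃ n i, T (hist r n) i = r n ∨ T (hist r (n + 1)) i = r n := by
      intro n
      induction n using Nat.strong_induction_on with
      | _ n ih =>
        intro k hk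
        have h2 := hn2 _ _ n hk
        have hT : T (hist r (k + 1)) = nxt (T (hist r k)) (r k) := rfl
        rcases h2 with ⟨i, hi⟩ | h2
        · exact ⟨k, i, Or.inr (by rw [hT]; exact hi)⟩
        · rcases h2 (r (k + 1)) (hr k) with ⟨i, hi⟩ | ⟨n', hn', hw⟩
          · exact ⟨k + 1, i, Or.inl (by rw [hT]; exact hi)⟩
          · exact ih n' hn' (k + 1) (by rw [hT]; exact hw)
    have main2 : ∃ n i, T (hist r n) i = r n ∨ T (hist r (n + 1)) i = r n := by
      rcases h (r 0) with ⟨i, hi⟩ | ⟨n, hn⟩
      · exact ⟨0, i, Or.inl hi⟩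
      · exact main n 0 hn
    obtain ⟨n, i, hi⟩ := main2
    exact ⟨n, e.symm i, by simpa using hi⟩

theorem not_copsWin {mv : V → V → Prop} {m : ℕ} (Inv : (Fin m → V) → V → Prop)
    (h0 : ∀ C0 : Fin m → V, ∃ v, (∀ i, C0 i ≠ v) ∧ Inv C0 v)
    (h1 : ∀ C v, Inv C v → ∀ C' : Fin m → V, (∀ i, mv (C i) (C' i)) →
      (∀ i, C' i ≠ v) ∧ ∃ v', mv v v' ∧ (∀ i, C' i ≠ v') ∧ Inv C' v') : ¬ CopsWin mv m := by
  classical
  rintro ⟨S, hS, hwin⟩
  -- the robber's trajectory
  obtain ⟨v0, hv0, hi0⟩ := h0 (S [])
  have hstep : ∀ x : {x : List V × V // (∀ i, S x.1 i ≠ x.2) ∧ Inv (S x.1) x.2},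
      ∃ v' : V, mv x.1.2 v' ∧ (∀ i, S (x.1.2 :: x.1.1) i ≠ v') ∧ Inv (S (x.1.2 :: x.1.1)) v' := by
    rintro ⟨⟨l, v⟩, hx1, hx2⟩
    exact (h1 _ _ hx2 (S (v :: l)) (fun i => hS l v i)).2
  choose nx hnx1 hnx2 hnx3 using hstep
  let st : ℕ → {x : List V × V // (∀ i, S x.1 i ≠ x.2) ∧ Inv (S x.1) x.2} := fun n =>
    Nat.rec ⟨([], v0), hv0, hi0⟩
      (fun _ x => ⟨(x.1.2 :: x.1.1, nx x), hnx2 x, hnx3 x⟩) n
  have hst1 : ∀ n, st (n + 1) = ⟨((st n).1.2 :: (st n).1.1, nx (st n)), hnx2 (st n), hnx3 (st n)⟩ :=
    fun n => rfl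
  let r : ℕ → V := fun n => (st n).1.2
  have hr : ∀ n, hist r n = (st n).1.1 := by
    intro n
    induction n with
    | zero => rfl
    | succ n ih =>
      rw [hst1]
      simp only [hist, ih]
      rfl
  have hmv : ∀ n, mv (r n) (r (n + 1)) := by
    intro n
    have : r (n + 1) = nx (st n) := by simp only [r, hst1]
    rw [this]
    exact hnx1 (st n)
  obtain ⟨n, i, h | h⟩ := hwin r hmv
  · rw [hr] at h
    exact (st n).2.1 i h
  · have e : hist r (n + 1) = (st n).1.2 :: (st n).1.1 := by
      rw [hr, hst1]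
    rw [e] at h
    have := (h1 _ _ (st n).2.2 (S ((st n).1.2 :: (st n).1.1)) (fun i => hS _ _ i)).1 i
    exact this h

end Pool.Agent.R5.CA
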