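import Pool.Agent.R5.CA.Game

/-!
# The net graphs
-/

namespace Pool.Agent.R5.CA

/-- Number of twins of the lines of class `t`. -/
def Mt (k s2 t : ℕ) : ℕ := if t < s2 then 1 else k + 1

lemma Mt_pos (k s2 t : ℕ) : 0 < Mt k s2 t := by
  unfold Mt; split_ifs <;> omega

/-- Vertices: points of the plane over `ZMod p`, class vertices, lines (class, index, twin). -/
inductive Vx (c k s2 p : ℕ) : Type
  | pt (x y : ZMod p)
  | sg (t : Fin c)
  | ln (t : Fin c) (i : ZMod p) (b : Fin (Mt k s2 t))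

namespace Vx

variable {c k s2 p : ℕ}

/-- The index of the line of class `t` through the point `(x, y)`. -/
def f (t : Fin c) (x y : ZMod p) : ZMod p := y - ((t : ℕ) : ZMod p) * x

def adj : Vx c k s2 p → Vx c k s2 p → Prop
  | pt x y, ln t i _ => f t x y = i
  | ln t i _, pt x y => f t x y = i
  | sg t, ln t' _ _ => t = t'
  | ln t' _ _, sg t => t = t'
  | pt _ _, pt _ _ => False
  | pt _ _, sg _ => False
  | sg _, pt _ _ => False
  | sg _, sg _ => False
  | ln _ _ _, ln _ _ _ => False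

def sideX : Vx c k s2 p → Prop
  | pt _ _ => True
  | sg _ => True
  | ln _ _ _ => False

/-- The graph. -/
def G (c k s2 p : ℕ) : SimpleGraph (Vx c k s2 p) where
  Adj := adj
  symm := by
    constructor
    intro u v h
    cases u <;> cases v <;> simp_all [adj]
  loopless := by
    constructor
    intro u h
    cases u <;> simp_all [adj]

lemma adj_side {u v : Vx c k s2 p} (h : adj u v) : sideX u ↔ ¬ sideX v := by
  cases u <;> cases v <;> simp_all [adj, sideX]

lemma G_adj {u v : Vx c k s2 p} : (G c k s2 p).Adj u v ↔ adj u v := Iff.rfl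

lemma adj_comm' {u v : Vx c k s2 p} : adj u v ↔ adj v u :=
  (G c k s2 p).adj_comm u v

/-- The first twin. -/
def b0 (k s2 : ℕ) (t : Fin c) : Fin (Mt k s2 t) := ⟨0, Mt_pos k s2 t⟩

lemma exists_nbr (hc : 0 < c) (v : Vx c k s2 p) : ∃ v', adj v v' := by
  cases v with
  | pt x y => exact ⟨ln ⟨0, hc⟩ (f ⟨0, hc⟩ x y) (b0 k s2 _), rfl⟩
  | sg t => exact ⟨ln t 0 (b0 k s2 _), rfl⟩
  | ln t i b => exact ⟨sg t, rfl⟩

lemma f_zero (t : Fin c) : f t (0 : ZMod p) 0 = 0 := by simp [f]

lemma two_classes [Fact p.Prime] (hcp : c ≤ p) {t t' : Fin c} (htt : t ≠ t') {x y x' y' : ZMod p}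
    (h1 : f t x y = f t x' y') (h2 : f t' x y = f t' x' y') : x = x' ∧ y = y' := by
  unfold f at h1 h2
  have hne : ((t : ℕ) : ZMod p) - ((t' : ℕ) : ZMod p) ≠ 0 := by
    intro h
    apply htt
    have h3 : ((t : ℕ) : ZMod p) = ((t' : ℕ) : ZMod p) := sub_eq_zero.1 h
    rw [ZMod.natCast_eq_natCast_iff'] at h3
    rw [Nat.mod_eq_of_lt (lt_of_lt_of_le t.2 hcp), Nat.mod_eq_of_lt (lt_of_lt_of_le t'.2 hcp)] at h3
    exact Fin.ext h3
  have h3 : (((t : ℕ) : ZMod p) - ((t' : ℕ) : ZMod p)) * (x - x') = 0 := by linear_combination h2 - h1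
  have h4 : x = x' := by
    rcases mul_eq_zero.1 h3 with h | h
    · exact absurd h hne
    · exact sub_eq_zero.1 h
  subst h4
  exact ⟨rfl, by linear_combination h1⟩

/-- The vertices of a line are parametrised by `ZMod p`. -/
lemma f_param (t : Fin c) (i u : ZMod p) : f t u (i + ((t : ℕ) : ZMod p) * u) = i := by
  unfold f; ring

instance [NeZero p] : Finite (Vx c k s2 p) := by
  let g : Vx c k s2 p → (ZMod p × ZMod p) ⊕ (Fin c ⊕ (Σ t : Fin c, ZMod p × Fin (Mt k s2 t))) :=
    fun v => match v with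
      | pt x y => Sum.inl (x, y)
      | sg t => Sum.inr (Sum.inl t)
      | ln t i b => Sum.inr (Sum.inr ⟨t, i, b⟩)
  apply Finite.of_injective g
  intro u v h
  cases u <;> cases v <;> simp [g] at h
  · obtain ⟨rfl, rfl⟩ := h; rfl
  · subst h; rfl
  · obtain ⟨rfl, h⟩ := h
    obtain ⟨rfl, rfl⟩ := by simpa using h
    rfl

/-! ### Connectedness -/

lemma reach_ln (t : Fin c) (i : ZMod p) (b : Fin (Mt k s2 t)) :
    (G c k s2 p).Reachable (ln t i b) (pt 0 i) := by
  apply SimpleGraph.Adj.reachable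
  rw [G_adj]
  simp [adj, f]

lemma reach_pt (hc : 1 < c) (x y : ZMod p) : (G c k s2 p).Reachable (pt x y) (pt 0 0) := by
  -- class 0 lines have slope 0, class 1 lines slope 1
  have hA : ∀ (x y x' : ZMod p), (G c k s2 p).Reachable (pt x y) (pt x' y) := by
    intro x y x'
    have h1 : (G c k s2 p).Adj (pt x y) (ln ⟨0, by omega⟩ y (b0 k s2 _)) := by
      rw [G_adj]
      simp [adj, f]
    have h2 : (G c k s2 p).Adj (pt x' y) (ln ⟨0, by omega⟩ y (b0 k s2 _)) := by
      rw [G_adj]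
      simp [adj, f]
    exact h1.reachable.trans h2.symm.reachable
  have hB : ∀ (y : ZMod p), (G c k s2 p).Reachable (pt 0 y) (pt (-y) 0) := by
    intro y
    have h1 : (G c k s2 p).Adj (pt 0 y) (ln ⟨1, hc⟩ y (b0 k s2 _)) := by
      rw [G_adj]
      simp [adj, f]
    have h2 : (G c k s2 p).Adj (pt (-y) 0) (ln ⟨1, hc⟩ y (b0 k s2 _)) := by
      rw [G_adj]
      simp [adj, f]
    exact h1.reachable.trans h2.symm.reachable
  exact ((hA x y 0).trans (hB y)).trans (hA _ _ _)

lemma connected (hc : 1 < c) : (G c k s2 p).Connected := by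
  have h : ∀ v : Vx c k s2 p, (G c k s2 p).Reachable v (pt 0 0) := by
    intro v
    cases v with
    | pt x y => exact reach_pt hc x y
    | sg t =>
      have h1 : (G c k s2 p).Adj (sg t) (ln t 0 (b0 k s2 _)) := by
        rw [G_adj]
        simp [adj]
      exact h1.reachable.trans ((reach_ln _ _ _).trans (reach_pt hc _ _))
    | ln t i b => exact (reach_ln t i b).trans (reach_pt hc _ _)
  exact (SimpleGraph.connected_iff _).2 ⟨fun u v => (h u).trans (h v).symm, ⟨pt 0 0⟩⟩

end Vx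

end Pool.Agent.R5.CA
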