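import Pool.Agent.R5.CA.Graph

/-!
# Lower bounds: the robber's strategies
-/

namespace Pool.Agent.R5.CA

open Classical

namespace Vx

variable {c k s2 p m : ℕ}

lemma adj_ln_twin {z : Vx c k s2 p} {t : Fin c} {i : ZMod p} {b b' : Fin (Mt k s2 t)}
    (h : adj z (ln t i b)) : adj z (ln t i b') := by
  cases z <;> simp_all [adj]

/-- A vertex different from the point `(x, y)` is adjacent to lines through it of one class only. -/
lemma cover_unique [Fact p.Prime] (hcp : c ≤ p) {z : Vx c k s2 p} {x y : ZMod p} (hz : z ≠ pt x y)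
    {t t' : Fin c} {b : Fin (Mt k s2 t)} {b' : Fin (Mt k s2 t')}
    (h : adj z (ln t (f t x y) b)) (h' : adj z (ln t' (f t' x y) b')) : t = t' := by
  cases z with
  | pt x' y' =>
    by_contra hne
    have h1 : f t x' y' = f t x y := h
    have h2 : f t' x' y' = f t' x y := h'
    obtain ⟨rfl, rfl⟩ := two_classes hcp hne h1 h2
    exact hz rfl
  | sg s =>
    have h1 : s = t := h
    have h2 : s = t' := h'
    rw [← h1, ← h2]
  | ln _ _ _ => exact absurd h (by simp [adj])

lemma pick_idx [Fact p.Prime] (hmp : m < p) (C : Fin m → Vx c k s2 p) (t : Fin c) :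
    ∃ i, ∀ j b', C j ≠ ln t i b' := by
  by_contra hcon
  push Not at hcon
  choose g hg using hcon
  have hinj : Function.Injective g := by
    intro i i' h
    obtain ⟨b, hb⟩ := hg i
    obtain ⟨b', hb'⟩ := hg i'
    rw [h, hb'] at hb
    simp only [ln.injEq] at hb
    exact hb.2.1.symm
  have := Fintype.card_le_of_injective g hinj
  rw [ZMod.card, Fintype.card_fin] at this
  omega

lemma pick_pt [Fact p.Prime] (hcp : c ≤ p) (hmp : m < p) (C : Fin m → Vx c k s2 p) (t : Fin c)
    (i : ZMod p) (h : ∀ j b', C j ≠ ln t i b') :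
    ∃ x y, f t x y = i ∧ ∀ j, C j ≠ pt x y ∧ ¬ adj (C j) (pt x y) := by
  by_contra hcon
  push Not at hcon
  have hcon' : ∀ u : ZMod p, ∃ j, C j ≠ pt u (i + ((t : ℕ) : ZMod p) * u) →
      adj (C j) (pt u (i + ((t : ℕ) : ZMod p) * u)) :=
    fun u => hcon u _ (f_param t i u)
  choose g hg using hcon'
  have hinj : Function.Injective g := by
    intro u u' huu
    have h1 := hg u
    have h2 := hg u'
    rw [← huu] at h2
    cases hC : C (g u) with
    | pt x y =>
      rw [hC] at h1 h2
      have e1 : pt x y = (pt u (i + ((t : ℕ) : ZMod p) * u) : Vx c k s2 p) := by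
        by_contra hne
        exact absurd (h1 hne) (by simp [adj])
      have e2 : pt x y = (pt u' (i + ((t : ℕ) : ZMod p) * u') : Vx c k s2 p) := by
        by_contra hne
        exact absurd (h2 hne) (by simp [adj])
      simp only [pt.injEq] at e1 e2
      rw [← e1.1, ← e2.1]
    | sg s =>
      rw [hC] at h1
      exact absurd (h1 (by simp)) (by simp [adj])
    | ln t' i' b' =>
      rw [hC] at h1 h2
      have e1 : f t' u (i + ((t : ℕ) : ZMod p) * u) = i' := h1 (by simp)
      have e2 : f t' u' (i + ((t : ℕ) : ZMod p) * u') = i' := h2 (by simp)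
      by_cases ht : t' = t
      · subst ht
        rw [f_param] at e1
        subst e1
        exact absurd hC (h _ _)
      · exact (two_classes hcp ht (e1.trans e2.symm)
          ((f_param t i u).trans (f_param t i u').symm)).1
  have := Fintype.card_le_of_injective g hinj
  rw [ZMod.card, Fintype.card_fin] at this
  omega

/-- `m < c` passive cops lose. -/
theorem cop_lower [Fact p.Prime] (hcp : c ≤ p) (hm : m < c) :
    ¬ CopsWin (fun u v => u = v ∨ (G c k s2 p).Adj u v) m := by
  have hc : 0 < c := by omega
  apply not_copsWin (fun C v => (∃ x y, v = pt x y ∧ ∀ j, C j ≠ v ∧ ¬ adj (C j) v) ∨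
    (∃ t i b, v = ln t i b ∧ (∀ j b', C j ≠ ln t i b') ∧ ∀ j, ¬ adj (C j) v))
  · intro C0
    obtain ⟨i, hi⟩ := pick_idx (by omega : m < p) C0 ⟨0, hc⟩
    obtain ⟨x, y, _, hxy⟩ := pick_pt hcp (by omega) C0 ⟨0, hc⟩ i hi
    exact ⟨pt x y, fun j => (hxy j).1, Or.inl ⟨x, y, rfl, hxy⟩⟩
  · intro C v hI C' hC'
    rcases hI with ⟨x, y, rfl, hxy⟩ | ⟨t, i, b, rfl, h1, h2⟩
    · have hne : ∀ j, C' j ≠ pt x y := by
        intro j h
        rcases hC' j with h' | h'
        · exact (hxy j).1 (h'.trans h)
        · rw [h] at h'
          exact (hxy j).2 h'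
      refine ⟨hne, ?_⟩
      -- an uncovered class
      have hex : ∃ t : Fin c, ∀ j, (∀ b', C' j ≠ ln t (f t x y) b') ∧
          ¬ adj (C' j) (ln t (f t x y) (b0 k s2 t)) := by
        by_contra hcon
        push Not at hcon
        choose g hg using hcon
        have hinj : Function.Injective g := by
          intro t t' htt
          have h1 := hg t
          have h2 := hg t'
          rw [← htt] at h2
          cases hC : C' (g t) with
          | pt x' y' =>
            rw [hC] at h1 h2
            apply cover_unique hcp (z := C' (g t)) (hne _) (b := b0 k s2 t) (b' := b0 k s2 t')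
            · rw [hC]; exact h1 (by simp)
            · rw [hC]; exact h2 (by simp)
          | sg s =>
            rw [hC] at h1 h2
            apply cover_unique hcp (z := C' (g t)) (hne _) (b := b0 k s2 t) (b' := b0 k s2 t')
            · rw [hC]; exact h1 (by simp)
            · rw [hC]; exact h2 (by simp)
          | ln s i' b' =>
            rw [hC] at h1 h2
            have e1 : ∃ b'', ln s i' b' = (ln t (f t x y) b'' : Vx c k s2 p) := by
              by_contra hn
              push Not at hn
              exact absurd (h1 hn) (by simp [adj])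
            have e2 : ∃ b'', ln s i' b' = (ln t' (f t' x y) b'' : Vx c k s2 p) := by
              by_contra hn
              push Not at hn
              exact absurd (h2 hn) (by simp [adj])
            obtain ⟨b1, e1⟩ := e1
            obtain ⟨b2, e2⟩ := e2
            simp only [ln.injEq] at e1 e2
            rw [← e1.1, ← e2.1]
        have := Fintype.card_le_of_injective g hinj
        rw [Fintype.card_fin, Fintype.card_fin] at this
        omega
      obtain ⟨t, ht⟩ := hex
      refine ⟨ln t (f t x y) (b0 k s2 t), Or.inr rfl, fun j => (ht j).1 _, Or.inr ?_⟩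
      exact ⟨t, _, _, rfl, fun j b' => (ht j).1 b', fun j => (ht j).2⟩
    · have hne : ∀ j b', C' j ≠ ln t i b' := by
        intro j b' h
        rcases hC' j with h' | h'
        · exact h1 j b' (h'.trans h)
        · rw [h] at h'
          exact h2 j (adj_ln_twin h')
      refine ⟨fun j => hne j b, ?_⟩
      obtain ⟨x, y, hf, hxy⟩ := pick_pt hcp (by omega) C' t i hne
      exact ⟨pt x y, Or.inr hf, fun j => (hxy j).1, Or.inl ⟨x, y, rfl, hxy⟩⟩

noncomputable def nX (C : Fin m → Vx c k s2 p) : ℕ := (Finset.univ.filter (fun j => sideX (C j))).card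
noncomputable def nL (C : Fin m → Vx c k s2 p) : ℕ := (Finset.univ.filter (fun j => ¬ sideX (C j))).card

lemma nX_add_nL (C : Fin m → Vx c k s2 p) : nX C + nL C = m := by
  unfold nX nL
  rw [Finset.card_filter_add_card_filter_not]
  simp

lemma nX_move {C C' : Fin m → Vx c k s2 p} (h : ∀ j, adj (C j) (C' j)) : nX C' = nL C := by
  unfold nX nL
  congr 1
  apply Finset.filter_congr
  intro j _
  have := adj_side (h j)
  tauto

lemma nL_move {C C' : Fin m → Vx c k s2 p} (h : ∀ j, adj (C j) (C' j)) : nL C' = nX C := by
  unfold nX nL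
  congr 1
  apply Finset.filter_congr
  intro j _
  have := adj_side (h j)
  tauto

/-- The counting step: an unblocked line of a class which is not covered. -/
lemma pick_ln [Fact p.Prime] {s1 : ℕ} (hcp : c ≤ p) (hcs : c = s1 + s2) (hm : m < c + k)
    (C : Fin m → Vx c k s2 p) (x y : ZMod p) (hne : ∀ j, C j ≠ pt x y) (hX : nX C < s1) :
    ∃ (t : Fin c) (b : Fin (Mt k s2 t)), (∀ j, C j ≠ ln t (f t x y) b) ∧
      ∀ j, ¬ adj (C j) (ln t (f t x y) b) := by
  set R : Finset (Fin c) := Finset.univ.filter
    (fun t => ∃ j, adj (C j) (ln t (f t x y) (b0 k s2 t))) with hR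
  have hRm : ∀ t, t ∈ R ↔ ∃ j, adj (C j) (ln t (f t x y) (b0 k s2 t)) := by
    intro t; simp [hR]
  have hRcard : R.card ≤ nX C := by
    have h1 : ∀ t : {t // t ∈ R}, ∃ j, adj (C j) (ln t.1 (f t.1 x y) (b0 k s2 t.1)) :=
      fun t => (hRm t.1).1 t.2
    choose g hg using h1
    rw [← Finset.card_attach]
    apply Finset.card_le_card_of_injOn g
    · intro t _
      rw [Finset.mem_coe, Finset.mem_filter]
      refine ⟨Finset.mem_univ _, ?_⟩
      rw [adj_side (hg t)]
      simp [sideX]
    · intro t _ t' _ h
      have a1 := hg t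
      have a2 := hg t'
      rw [← h] at a2
      exact Subtype.ext (cover_unique hcp (hne _) a1 a2)
  by_contra hcon
  push Not at hcon
  -- every line of an uncovered class is occupied
  have hocc : ∀ q : (Σ t : Fin c, Fin (Mt k s2 t)), q.1 ∉ R → ∃ j, C j = ln q.1 (f q.1 x y) q.2 := by
    rintro ⟨t, b⟩ ht
    by_contra hn
    push Not at hn
    obtain ⟨j, hj⟩ := hcon t b hn
    exact ht ((hRm t).2 ⟨j, adj_ln_twin hj⟩)
  have hcount : ((Finset.univ \ R).sigma (fun t : Fin c => (Finset.univ : Finset (Fin (Mt k s2 t))))).card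
      ≤ nL C := by
    have h1 : ∀ q : {q // q ∈ ((Finset.univ \ R).sigma
        (fun t : Fin c => (Finset.univ : Finset (Fin (Mt k s2 t)))))},
        ∃ j, C j = ln q.1.1 (f q.1.1 x y) q.1.2 := by
      rintro ⟨q, hq⟩
      rw [Finset.mem_sigma, Finset.mem_sdiff] at hq
      exact hocc q hq.1.2
    choose g hg using h1
    rw [← Finset.card_attach]
    apply Finset.card_le_card_of_injOn g
    · intro q _
      rw [Finset.mem_coe, Finset.mem_filter]
      refine ⟨Finset.mem_univ _, ?_⟩
      rw [hg q]
      simp [sideX]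
    · rintro ⟨⟨t, b⟩, hq⟩ _ ⟨⟨t', b'⟩, hq'⟩ _ h
      have a1 := hg ⟨⟨t, b⟩, hq⟩
      have a2 := hg ⟨⟨t', b'⟩, hq'⟩
      rw [← h, a1] at a2
      simp only [ln.injEq] at a2
      obtain ⟨rfl, _, a3⟩ := a2
      rw [heq_eq_eq] at a3
      subst a3
      rfl
  rw [Finset.card_sigma] at hcount
  simp only [Finset.card_univ, Fintype.card_fin] at hcount
  -- a class with `k + 1` twins which is not covered
  obtain ⟨ts, hts1, hts2⟩ : ∃ ts : Fin c, ts ∉ R ∧ s2 ≤ (ts : ℕ) := by
    by_contra hn
    push Not at hn
    have : s1 ≤ R.card := by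
      have h1 : (Finset.univ : Finset (Fin s1)).card ≤ R.card := by
        apply Finset.card_le_card_of_injOn (fun a : Fin s1 => (⟨s2 + a, by have := a.2; omega⟩ : Fin c))
        · intro a _
          rw [Finset.mem_coe]
          by_contra hna
          have := hn _ hna
          simp only at this
          omega
        · intro a _ a' _ h
          simp only [Fin.mk.injEq] at h
          exact Fin.ext (by omega)
      simpa using h1
    omega
  have hts3 : ts ∈ (Finset.univ \ R) := by simp [hts1]
  rw [← Finset.add_sum_erase _ _ hts3] at hcount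
  have hM : Mt k s2 ts = k + 1 := by simp [Mt, Nat.not_lt.2 hts2]
  have hrest : ((Finset.univ \ R).erase ts).card ≤ ∑ t ∈ (Finset.univ \ R).erase ts, Mt k s2 t := by
    rw [Finset.card_eq_sum_ones]
    exact Finset.sum_le_sum (fun t _ => Mt_pos k s2 t)
  rw [Finset.card_erase_of_mem hts3, Finset.card_sdiff_of_subset (Finset.subset_univ _),
    Finset.card_univ, Fintype.card_fin] at hrest
  have h3 := nX_add_nL C
  omega

/-- `m < c + k` fully active cops lose. -/
theorem acop_lower [Fact p.Prime] {s1 : ℕ} (hcp : c ≤ p) (hmp : m < p) (hcs : c = s1 + s2)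
    (hs1 : 0 < s1) (hm : m < c + k) (hck : c + k ≤ 2 * s1) :
    ¬ CopsWin (fun u v => (G c k s2 p).Adj u v) m := by
  apply not_copsWin (fun C v => (∀ j, ¬ adj (C j) v) ∧
    ((∃ x y, v = pt x y ∧ nL C < s1) ∨ (∃ t i b, v = ln t i b ∧ nX C < s1)))
  · intro C0
    rcases Nat.lt_or_ge (nX C0) s1 with hX | hX
    · -- start on a line
      obtain ⟨t, ht⟩ : ∃ t : Fin c, ∀ j, C0 j ≠ sg t := by
        by_contra hcon
        push Not at hcon
        choose g hg using hcon
        have : (Finset.univ : Finset (Fin c)).card ≤ nX C0 := by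
          apply Finset.card_le_card_of_injOn g
          · intro t _
            rw [Finset.mem_coe, Finset.mem_filter]
            refine ⟨Finset.mem_univ _, ?_⟩
            rw [hg t]
            simp [sideX]
          · intro t _ t' _ h
            have a1 := hg t
            have a2 := hg t'
            rw [← h, a1] at a2
            simpa using a2
        simp only [Finset.card_univ, Fintype.card_fin] at this
        omega
      obtain ⟨i, hi⟩ : ∃ i : ZMod p, ∀ j, C0 j ≠ ln t i (b0 k s2 t) ∧
          ¬ adj (C0 j) (ln t i (b0 k s2 t)) := by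
        by_contra hcon
        push Not at hcon
        choose g hg using hcon
        have hinj : Function.Injective g := by
          intro i i' h
          have a1 := hg i
          have a2 := hg i'
          rw [← h] at a2
          cases hC : C0 (g i) with
          | pt x y =>
            rw [hC] at a1 a2
            have e1 : f t x y = i := a1 (by simp)
            have e2 : f t x y = i' := a2 (by simp)
            exact e1.symm.trans e2
          | sg s =>
            rw [hC] at a1
            have e1 : s = t := a1 (by simp)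
            subst e1
            exact absurd hC (ht _)
          | ln s i0 b =>
            rw [hC] at a1 a2
            have e1 : ln s i0 b = (ln t i (b0 k s2 t) : Vx c k s2 p) := by
              by_contra hn
              exact absurd (a1 hn) (by simp [adj])
            have e2 : ln s i0 b = (ln t i' (b0 k s2 t) : Vx c k s2 p) := by
              by_contra hn
              exact absurd (a2 hn) (by simp [adj])
            simp only [ln.injEq] at e1 e2
            exact e1.2.1.symm.trans e2.2.1
        have := Fintype.card_le_of_injective g hinj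
        rw [ZMod.card, Fintype.card_fin] at this
        omega
      exact ⟨ln t i (b0 k s2 t), fun j => (hi j).1, fun j => (hi j).2,
        Or.inr ⟨t, i, _, rfl, hX⟩⟩
    · -- start on a point
      have h3 := nX_add_nL C0
      obtain ⟨i, hi⟩ := pick_idx hmp C0 ⟨0, by omega⟩
      obtain ⟨x, y, _, hxy⟩ := pick_pt hcp hmp C0 ⟨0, by omega⟩ i hi
      exact ⟨pt x y, fun j => (hxy j).1, fun j => (hxy j).2, Or.inl ⟨x, y, rfl, by omega⟩⟩
  · rintro C v ⟨hadj, hI⟩ C' hC'
    have hne : ∀ j, C' j ≠ v := by
      intro j h
      have := hC' j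
      rw [h] at this
      exact hadj j this
    refine ⟨hne, ?_⟩
    rcases hI with ⟨x, y, rfl, hL⟩ | ⟨t, i, b, rfl, hX⟩
    · obtain ⟨t, b, h1, h2⟩ := pick_ln hcp hcs hm C' x y hne (by rw [nX_move hC']; exact hL)
      exact ⟨ln t (f t x y) b, rfl, h1, h2, Or.inr ⟨t, _, b, rfl, by rw [nX_move hC']; exact hL⟩⟩
    · have hne' : ∀ j b', C' j ≠ ln t i b' := by
        intro j b' h
        have := hC' j
        rw [h] at this
        exact hadj j (adj_ln_twin this)
      obtain ⟨x, y, hf, hxy⟩ := pick_pt hcp hmp C' t i hne'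
      exact ⟨pt x y, hf, fun j => (hxy j).1, fun j => (hxy j).2,
        Or.inl ⟨x, y, rfl, by rw [nL_move hC']; exact hX⟩⟩

end Vx

end Pool.Agent.R5.CA
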