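import Pool.Agent.R5.CA.Graph

/-!
# Upper bounds
-/

namespace Pool.Agent.R5.CA

namespace Vx

variable {c k s2 p : ℕ}

/-- Jobs of the cops: right-parity guard of class `t`, or wrong-parity guard of the twin `b` of class `t`. -/
inductive Job (c k s2 : ℕ) : Type
  | R (t : Fin c)
  | W (t : Fin c) (b : Fin (Mt k s2 t))

def ready : Job c k s2 → Vx c k s2 p
  | Job.R t => ln t 0 (b0 k s2 t)
  | Job.W t _ => sg t

def idx (t : Fin c) : Vx c k s2 p → ZMod p
  | pt x y => f t x y
  | _ => 0

def resp (v : Vx c k s2 p) : Job c k s2 → Vx c k s2 p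
  | Job.R t => sg t
  | Job.W t b => ln t (idx t v) b

lemma ready_resp (v : Vx c k s2 p) (j : Job c k s2) : adj (ready j) (resp v j) := by
  cases j <;> simp [ready, resp, adj]

lemma ready_win {ι : Type*} (hc : 0 < c) (J : ι → Job c k s2)
    (cov : ∀ t, (∃ j, J j = Job.R t) ∨ ∀ b, ∃ j, J j = Job.W t b)
    (t : Fin c) (i : ZMod p) (b : Fin (Mt k s2 t)) (v' : Vx c k s2 p) (hv' : adj (ln t i b) v') :
    (∃ j, (ready (J j) : Vx c k s2 p) = v') ∨
      Wn adj 2 (fun j => (ready (J j) : Vx c k s2 p)) v' := by
  have hd : ∀ v : Vx c k s2 p, ∃ v', adj v v' := exists_nbr hc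
  cases v' with
  | ln t' i' b' => exact absurd hv' (by simp [adj])
  | sg t' =>
    have htt : t' = t := hv'
    subst htt
    rcases cov t' with ⟨j, hj⟩ | h
    · right
      refine ⟨fun j => resp (sg t') (J j), fun j => ready_resp _ _, Or.inl ⟨j, ?_⟩⟩
      simp [hj, resp]
    · left
      obtain ⟨j, hj⟩ := h (b0 k s2 t')
      exact ⟨j, by simp [hj, ready]⟩
  | pt x y =>
    right
    refine ⟨fun j => resp (pt x y) (J j), fun j => ready_resp _ _, Or.inr ?_⟩
    intro v'' hv''
    cases v'' with
    | pt _ _ => exact absurd hv'' (by simp [adj])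
    | sg _ => exact absurd hv'' (by simp [adj])
    | ln s i'' b'' =>
      have hi : f s x y = i'' := hv''
      subst hi
      rcases cov s with ⟨j, hj⟩ | h
      · right
        apply Wn_one hd
        refine ⟨j, ?_⟩
        simp [hj, resp, adj]
      · left
        obtain ⟨j, hj⟩ := h b''
        exact ⟨j, by simp [hj, resp, idx]⟩

/-- `s1 + s2 + k` fully active cops win. -/
theorem acop_upper (s1 : ℕ) (hs1 : 0 < s1) (hk : s1 = s2 + k ∨ s1 = s2 + k + 1) (hcs : c = s1 + s2) :
    CopsWin (fun u v => (G c k s2 p).Adj u v) (s1 + (s2 + k)) := by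
  have hc : 0 < c := by omega
  -- jobs if the robber starts on a line
  let J1 : Fin s1 ⊕ Fin (s2 + k) → Job c k s2 := fun j => match j with
    | Sum.inl a => Job.R ⟨s2 + a, by have := a.2; omega⟩
    | Sum.inr b => Job.W ⟨b, by have := b.2; omega⟩ (b0 k s2 _)
  have cov1 : ∀ t, (∃ j, J1 j = Job.R t) ∨ ∀ b, ∃ j, J1 j = Job.W t b := by
    intro t
    rcases Nat.lt_or_ge (t : ℕ) s2 with h | h
    · right
      intro b
      refine ⟨Sum.inr ⟨t, by omega⟩, ?_⟩
      have hM : Mt k s2 t = 1 := by simp [Mt, h]
      have hb : b = b0 k s2 t := by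
        apply Fin.ext
        have := b.2
        simp only [b0]
        omega
      rw [hb]
    · left
      refine ⟨Sum.inl ⟨t - s2, by have := t.2; omega⟩, ?_⟩
      simp only [J1, Job.R.injEq]
      apply Fin.ext
      simp only
      omega
  -- jobs if the robber starts on a point
  let J2 : Fin s1 ⊕ Fin (s2 + k) → Job c k s2 := fun j => match j with
    | Sum.inl a => if h : (a : ℕ) < s2 then Job.W ⟨a, by omega⟩ (b0 k s2 _)
        else Job.W ⟨s2, by omega⟩ ⟨a - s2, by have := a.2; simp only [Mt, lt_irrefl, if_false]; omega⟩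
    | Sum.inr b => Job.R ⟨s1 - k + b, by have := b.2; omega⟩
  have hs2c : s2 < c := by omega
  have cov2 : ∀ t, (∃ j, J2 j = Job.R t) ∨ ∀ b, ∃ j, J2 j = Job.W t b := by
    intro t
    rcases Nat.lt_or_ge (t : ℕ) (s1 - k) with h | h
    · right
      intro b
      rcases Nat.lt_or_ge (t : ℕ) s2 with h' | h'
      · refine ⟨Sum.inl ⟨t, by omega⟩, ?_⟩
        have hM : Mt k s2 t = 1 := by simp [Mt, h']
        have hb : b = b0 k s2 t := by
          apply Fin.ext
          have := b.2
          simp only [b0]
          omega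
        rw [hb]
        simp [J2, h']
      · obtain rfl : t = ⟨s2, hs2c⟩ := Fin.ext (by simp only; omega)
        have hb2 : (b : ℕ) < k + 1 := by
          have := b.2
          simpa [Mt] using this
        refine ⟨Sum.inl ⟨s2 + b, by omega⟩, ?_⟩
        simp [J2]
    · left
      refine ⟨Sum.inr ⟨t - (s1 - k), by have := t.2; omega⟩, ?_⟩
      simp only [J2, Job.R.injEq]
      apply Fin.ext
      simp only
      omega
  -- the class of a job
  let cl : Job c k s2 → Fin c := fun j => match j with
    | Job.R t => t
    | Job.W t _ => t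
  let C0 : Fin s1 ⊕ Fin (s2 + k) → Vx c k s2 p := fun j => match j with
    | Sum.inl _ => pt 0 0
    | Sum.inr b => ln ⟨b, by have := b.2; omega⟩ 0 (b0 k s2 _)
  let C1 : Fin s1 ⊕ Fin (s2 + k) → Vx c k s2 p := fun j => match j with
    | Sum.inl a => ln (cl (J2 (Sum.inl a))) 0 (b0 k s2 _)
    | Sum.inr _ => pt 0 0
  refine copsWin_of_Wn (exists_nbr hc) finSumFinEquiv.symm C0 ?_
  intro v
  right
  -- robber on the X side
  have hX : ∀ v : Vx c k s2 p, sideX v → ∃ n, Wn adj n C0 v := by
    intro v hv
    refine ⟨4, C1, ?_, Or.inr ?_⟩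
    · intro j
      rcases j with a | b
      · show adj (pt 0 0) (ln (cl (J2 (Sum.inl a))) 0 (b0 k s2 _))
        exact f_zero _
      · show adj (ln _ 0 _) (pt 0 0)
        exact f_zero _
    · intro v' hv'
      right
      cases v' with
      | pt x y => exact absurd hv ((not_congr (adj_side hv')).2 (by simp [sideX]))
      | sg t => exact absurd hv ((not_congr (adj_side hv')).2 (by simp [sideX]))
      | ln t i b =>
        refine ⟨fun j => ready (J2 j), ?_, Or.inr ?_⟩
        · intro j
          rcases j with a | b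
          · show adj (ln (cl (J2 (Sum.inl a))) 0 (b0 k s2 _)) (ready (J2 (Sum.inl a)))
            have : ∃ t b, J2 (Sum.inl a) = Job.W t b := by
              by_cases h : (a : ℕ) < s2
              · exact ⟨_, _, dif_pos h⟩
              · exact ⟨_, _, dif_neg h⟩
            obtain ⟨t, b, h⟩ := this
            rw [h]
            simp [ready, adj, cl]
          · show adj (pt 0 0) (ready (Job.R _))
            exact f_zero _
        · intro v'' hv''
          exact ready_win hc J2 cov2 t i b v'' hv''
  cases v with
  | pt x y => exact hX _ (by simp [sideX])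
  | sg t => exact hX _ (by simp [sideX])
  | ln t i b =>
    refine ⟨3, fun j => ready (J1 j), ?_, Or.inr ?_⟩
    · intro j
      rcases j with a | b
      · show adj (pt 0 0) (ready (Job.R _))
        exact f_zero _
      · show adj (ln _ 0 _) (ready (Job.W _ _))
        simp [ready, adj]
    · intro v'' hv''
      exact ready_win hc J1 cov1 t i b v'' hv''

/-- `c` passive cops win. -/
theorem cop_upper (hc : 1 < c) : CopsWin (fun u v => u = v ∨ (G c k s2 p).Adj u v) c := by
  classical
  let mv : Vx c k s2 p → Vx c k s2 p → Prop := fun u v => u = v ∨ adj u v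
  have hd : ∀ v : Vx c k s2 p, ∃ v', mv v v' := fun v => ⟨v, Or.inl rfl⟩
  let t0 : Fin c := ⟨0, by omega⟩
  let t1 : Fin c := ⟨1, hc⟩
  have h01 : t0 ≠ t1 := by simp [t0, t1]
  refine copsWin_of_Wn (mv := mv) hd (Equiv.refl _) (fun t : Fin c => (sg t : Vx c k s2 p)) ?_
  intro v
  cases v with
  | sg t => exact Or.inl ⟨t, rfl⟩
  | ln t i b =>
    right
    exact ⟨1, Wn_one hd ⟨t, Or.inr (by simp [adj])⟩⟩
  | pt x y =>
    right
    -- the three positions of the cops
    let C1 : Fin c → Vx c k s2 p := fun t => if t = t0 then ln t0 (f t0 x y) (b0 k s2 _) else sg t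
    let C2 : Fin c → Vx c k s2 p := fun t => if t = t0 then ln t0 (f t0 x y) (b0 k s2 _)
      else if t = t1 then ln t1 (f t1 x y) (b0 k s2 _) else sg t
    let C3 : Fin c → Vx c k s2 p := fun t => if t = t0 then ln t0 (f t0 x y) (b0 k s2 _)
      else if t = t1 then pt x y else sg t
    have e1 : C1 t0 = ln t0 (f t0 x y) (b0 k s2 _) := by simp [C1]
    have e2 : C2 t0 = ln t0 (f t0 x y) (b0 k s2 _) := by simp [C2]
    have e3 : C3 t0 = ln t0 (f t0 x y) (b0 k s2 _) := by simp [C3]
    have e4 : C3 t1 = pt x y := by simp [C3, h01.symm]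
    -- third round
    have R3 : ∀ b, Wn mv 2 C2 (ln t0 (f t0 x y) b) := by
      intro b
      refine ⟨C3, ?_, Or.inr ?_⟩
      · intro t
        simp only [C2, C3]
        split_ifs with h h'
        · exact Or.inl rfl
        · exact Or.inr (by simp [adj])
        · exact Or.inl rfl
      · intro v' hv'
        right
        rcases hv' with rfl | hv'
        · apply Wn_one hd
          exact ⟨t1, Or.inr (by rw [e4]; simp [adj])⟩
        · apply Wn_one hd
          refine ⟨t0, Or.inr ?_⟩
          rw [e3]
          cases v' <;> simp_all [adj]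
    -- second round
    have R2 : ∀ b, Wn mv 3 C1 (ln t0 (f t0 x y) b) := by
      intro b
      refine ⟨C2, ?_, Or.inr ?_⟩
      · intro t
        simp only [C2, C1]
        split_ifs with h h'
        · exact Or.inl rfl
        · right; subst h'; simp [adj]
        · exact Or.inl rfl
      · intro v' hv'
        right
        rcases hv' with rfl | hv'
        · exact R3 b
        · apply Wn_mono (n := 1) (by norm_num)
          apply Wn_one hd
          refine ⟨t0, Or.inr ?_⟩
          rw [e2]
          cases v' <;> simp_all [adj]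
    refine ⟨4, C1, ?_, Or.inr ?_⟩
    · intro t
      simp only [C1]
      split_ifs with h
      · right; subst h; simp [adj]
      · exact Or.inl rfl
    · intro v' hv'
      right
      rcases hv' with rfl | hv'
      · apply Wn_mono (n := 1) (by norm_num)
        apply Wn_one hd
        exact ⟨t0, Or.inr (by rw [e1]; simp [adj])⟩
      · cases v' with
        | pt _ _ => exact absurd hv' (by simp [adj])
        | sg _ => exact absurd hv' (by simp [adj])
        | ln t i b =>
          have hi : f t x y = i := hv'
          subst hi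
          by_cases ht : t = t0
          · subst ht
            exact R2 b
          · apply Wn_mono (n := 1) (by norm_num)
            apply Wn_one hd
            refine ⟨t, Or.inr ?_⟩
            simp [C1, ht, adj]

end Vx

end Pool.Agent.R5.CA
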